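import Pool.Agent.P8H15.FG.Stm

/-!
Project FG (helper15), package NCO: the prime powers which are not prime to `k`.
-/

set_option autoImplicit false

namespace Pool.Agent.P8H21.FG

open Finset ArithmeticFunction Pool.Agent.P8H15.FG

/-- the prime powers of `p` up to `X` -/
theorem one_prime {p X : ℕ} (hp : p.Prime) (hX : 1 ≤ X) (F : Finset ℕ)
    (hF : ∀ n ∈ F, n ≤ X ∧ IsPrimePow n ∧ n.minFac = p) :
    ∑ n ∈ F, vonMangoldt n ≤ Real.log X := by
  classical
  have h1 : ∀ n ∈ F, vonMangoldt n = Real.log p := by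
    intro n hn
    obtain ⟨-, h2, h3⟩ := hF n hn
    rw [vonMangoldt_apply, if_pos h2, h3]
  have h2 : F ⊆ (Icc 1 (Nat.log p X)).image fun a => p ^ a := by
    intro n hn
    obtain ⟨h3, h4, h5⟩ := hF n hn
    rw [isPrimePow_nat_iff] at h4
    obtain ⟨q, a, hq, ha, rfl⟩ := h4
    have h6 : q = p := by
      rw [← h5, hq.pow_minFac ha.ne']
    rw [Finset.mem_image]
    refine ⟨a, Finset.mem_Icc.2 ⟨ha, ?_⟩, by rw [h6]⟩
    rw [h6] at h3
    exact Nat.le_log_of_pow_le hp.one_lt h3
  have h3 : F.card ≤ Nat.log p X := by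
    refine (Finset.card_le_card h2).trans (Finset.card_image_le.trans ?_)
    rw [Nat.card_Icc, Nat.add_sub_cancel]
  rw [Finset.sum_congr rfl h1, Finset.sum_const, nsmul_eq_mul]
  have h4 : (0 : ℝ) ≤ Real.log p := Real.log_nonneg (by exact_mod_cast hp.one_lt.le)
  have h5 : ((p ^ Nat.log p X : ℕ) : ℝ) ≤ X := by
    exact_mod_cast Nat.pow_log_le_self p (by omega)
  have h6 : (Nat.log p X : ℝ) * Real.log p ≤ Real.log X := by
    rw [← Real.log_pow]
    refine Real.log_le_log (by have := hp.pos; positivity) ?_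
    rw [← Nat.cast_pow]
    exact h5
  refine le_trans (mul_le_mul_of_nonneg_right ?_ h4) h6
  exact_mod_cast h3

/-- **NCO.** -/
theorem nco : S_NCO := by
  classical
  intro X k hk hkX
  have hX : 1 ≤ X := hk.trans hkX
  have hlX : 0 ≤ Real.log X := Real.log_nonneg (by exact_mod_cast hX)
  obtain ⟨F, hFd⟩ : ∃ F : Finset ℕ, F = ((Icc 1 X).filter (fun n => ¬ n.Coprime k)).filter
    fun n => IsPrimePow n := ⟨_, rfl⟩
  have h1 : ∑ n ∈ (Icc 1 X).filter (fun n => ¬ n.Coprime k), vonMangoldt n =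
      ∑ n ∈ F, vonMangoldt n := by
    rw [hFd]
    refine (Finset.sum_filter_of_ne fun n _ hne => ?_).symm
    exact vonMangoldt_ne_zero_iff.1 hne
  have h2 : ∀ n ∈ F, n.minFac ∈ k.primeFactors := by
    intro n hn
    rw [hFd, Finset.mem_filter, Finset.mem_filter] at hn
    obtain ⟨⟨-, h3⟩, h4⟩ := hn
    rw [isPrimePow_nat_iff] at h4
    obtain ⟨q, a, hq, ha, rfl⟩ := h4
    rw [hq.pow_minFac ha.ne', Nat.mem_primeFactors]
    refine ⟨hq, ?_, by omega⟩
    by_contra h5
    apply h3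
    exact Nat.Coprime.pow_left a ((Nat.Prime.coprime_iff_not_dvd hq).2 h5)
  have h3 : ∑ n ∈ F, vonMangoldt n =
      ∑ p ∈ k.primeFactors, ∑ n ∈ F.filter (fun n => n.minFac = p), vonMangoldt n :=
    (Finset.sum_fiberwise_of_maps_to h2 _).symm
  have h4 : ∀ p ∈ k.primeFactors,
      ∑ n ∈ F.filter (fun n => n.minFac = p), vonMangoldt n ≤ Real.log X := by
    intro p hp
    refine one_prime (Nat.prime_of_mem_primeFactors hp) hX _ fun n hn => ?_
    rw [Finset.mem_filter, hFd, Finset.mem_filter, Finset.mem_filter, Finset.mem_Icc] at hn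
    exact ⟨hn.1.1.1.2, hn.1.2, hn.2⟩
  have h5 : (k.primeFactors.card : ℝ) * Real.log 2 ≤ Real.log X := by
    have h6 : 2 ^ k.primeFactors.card ≤ k := by
      refine le_trans ?_ (Nat.le_of_dvd hk (Nat.prod_primeFactors_dvd k))
      rw [← Finset.prod_const]
      exact Finset.prod_le_prod' fun p hp => (Nat.prime_of_mem_primeFactors hp).two_le
    rw [← Real.log_pow]
    refine Real.log_le_log (by positivity) ?_
    exact_mod_cast h6.trans hkX
  have h6 : (k.primeFactors.card : ℝ) ≤ 2 * Real.log X := by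
    have h7 := Real.log_two_gt_d9
    have h8 : (0 : ℝ) ≤ k.primeFactors.card := by positivity
    nlinarith
  rw [h1, h3]
  calc ∑ p ∈ k.primeFactors, ∑ n ∈ F.filter (fun n => n.minFac = p), vonMangoldt n
      ≤ ∑ p ∈ k.primeFactors, Real.log X := Finset.sum_le_sum h4
    _ = k.primeFactors.card * Real.log X := by rw [Finset.sum_const, nsmul_eq_mul]
    _ ≤ 2 * Real.log X * Real.log X := mul_le_mul_of_nonneg_right h6 hlX
    _ = 2 * Real.log X ^ 2 := by ring

end Pool.Agent.P8H21.FG
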